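import Mathlib
import Pool.Agent.X89.MT5

set_option autoImplicit false

open Matrix
open scoped ComplexOrder MatrixOrder

namespace Pool.Agent.Results.MP_ebd556_mp.ConstantOne

/-- The trace norm `Tr √(X* X)` of a square matrix. -/
noncomputable def traceNorm {d : ℕ} (X : Matrix (Fin d) (Fin d) ℂ) : ℝ :=
  (CFC.sqrt (Xᴴ * X)).trace.re

/-- `L(A₁,…,A_n) = Tr √(∑ A_j²) - ∑ Tr A_j`. -/
noncomputable def L {n d : ℕ} (A : Fin n → Matrix (Fin d) (Fin d) ℂ) : ℝ :=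
  (CFC.sqrt (∑ j, A j ^ 2)).trace.re - ∑ j, (A j).trace.re

/-- `R(A₁,…,A_n) = ∑_{j<k} (‖A_j - A_k‖₁ - Tr (A_j + A_k))`. -/
noncomputable def R {n d : ℕ} (A : Fin n → Matrix (Fin d) (Fin d) ℂ) : ℝ :=
  ∑ j, ∑ k ∈ Finset.Ioi j, (traceNorm (A j - A k) - (A j + A k).trace.re)

/-- The conjectured inequality holds with the constant `c = 1`, for all `n` and all `d`. -/
theorem result (n d : ℕ) (A : Fin n → Matrix (Fin d) (Fin d) ℂ) (hA : ∀ j, (A j).PosSemidef) :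
    L A ≥ R A :=
  Pool.Agent.X89.MT.main A hA

end Pool.Agent.Results.MP_ebd556_mp.ConstantOne
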